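import Mathlib

set_option autoImplicit false
namespace Pool.Agent.Results.MP_b13893_an.Yes
open PowerSeries Filter Topology Finset

/-- The truncation `[[c 0, ..., c N]]` of the negative continued fraction. -/
noncomputable def cf (c : ℕ → ℕ) : ℕ → ℝ
  | 0 => c 0
  | N + 1 => c 0 - 1 / cf (fun j => c (j + 1)) N

/-- The `q`-integer `1 + q + ... + q ^ (n - 1)`. -/
noncomputable def qn (n : ℕ) : ℚ⟦X⟧ := ∑ i ∈ range n, X ^ i

/-- The `q`-deformed truncation `[[c 0, ..., c N]]_q`, expanded as a power series in `q`. -/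
noncomputable def tr (c : ℕ → ℕ) : ℕ → ℚ⟦X⟧
  | 0 => qn (c 0)
  | N + 1 => qn (c 0) - X ^ (c 0 - 1) * (tr (fun j => c (j + 1)) N)⁻¹

/-- The shift rule, from `[x]_q` to `[x - 1]_q`. -/
noncomputable def sh (F : LaurentSeries ℚ) : LaurentSeries ℚ := HahnSeries.single (-1) 1 * (F - 1)

/-- `F` is the `q`-deformation of `x`. -/
def QReal (x : ℝ) (F : LaurentSeries ℚ) : Prop :=
  ∃ (m : ℕ) (c : ℕ → ℕ) (G : ℚ⟦X⟧), (∀ j, 2 ≤ c j) ∧ Tendsto (cf c) atTop (𝓝 (x + m)) ∧
    (∀ k, ∀ᶠ N in atTop, coeff k (tr c N) = coeff k G) ∧ F = sh^[m] (HahnSeries.ofPowerSeries ℤ ℚ G)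

noncomputable def S (s : ℝ) (n : ℕ) (F : ℚ⟦X⟧) : ℝ := ∑ k ∈ range n, |((coeff k F : ℚ) : ℝ)| * (s ^ 2) ^ k

variable {s : ℝ} {n : ℕ}

lemma S_nn (F : ℚ⟦X⟧) : 0 ≤ S s n F := sum_nonneg fun _ _ => by positivity

lemma S_add (F G : ℚ⟦X⟧) : S s n (F + G) ≤ S s n F + S s n G := by
  rw [S, S, S, ← sum_add_distrib]
  refine sum_le_sum fun k _ => ?_
  rw [← add_mul, map_add, Rat.cast_add]
  exact mul_le_mul_of_nonneg_right (abs_add_le _ _) (by positivity)

lemma S_neg (F : ℚ⟦X⟧) : S s n (-F) = S s n F := by simp [S]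

lemma S_mul (F G : ℚ⟦X⟧) : S s n (F * G) ≤ S s n F * S s n G := by
  refine le_trans (sum_le_sum fun k _ => ?_) ((sum_range_diag_flip n fun i j =>
    |((coeff i F : ℚ) : ℝ)| * (s ^ 2) ^ i * (|((coeff j G : ℚ) : ℝ)| * (s ^ 2) ^ j)).trans_le ?_)
  · rw [coeff_mul, Finset.Nat.sum_antidiagonal_eq_sum_range_succ_mk, Rat.cast_sum]
    refine (mul_le_mul_of_nonneg_right (abs_sum_le_sum_abs _ _) (by positivity)).trans ?_
    rw [sum_mul]
    refine sum_le_sum fun i hi => le_of_eq ?_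
    rw [mul_mul_mul_comm, ← pow_add, Nat.add_sub_cancel' (Nat.lt_succ_iff.1 (mem_range.1 hi)),
      Rat.cast_mul, abs_mul]
  · rw [S, S, sum_mul_sum]
    exact sum_le_sum fun i _ => sum_le_sum_of_subset_of_nonneg (range_subset_range.2 (Nat.sub_le _ _))
      fun _ _ _ => by positivity

lemma S_pow (j : ℕ) : S s n (X ^ j) ≤ (s ^ 2) ^ j := by
  simp only [S, coeff_X_pow, apply_ite (Rat.cast (K := ℝ)), apply_ite abs, ite_mul, Rat.cast_one,
    Rat.cast_zero, abs_one, abs_zero, one_mul, zero_mul, sum_ite_eq']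
  split_ifs
  · rfl
  · positivity

def Inv (s : ℝ) (F : ℚ⟦X⟧) : Prop := constantCoeff F = 1 ∧ ∀ n, S s n (F - 1) ≤ s

lemma Inv.a (s0 : 0 < s) (hs : s ^ 2 + s = 1) {F : ℚ⟦X⟧} (h : Inv s F) : Inv s (X * F + 1) := by
  refine ⟨by simp, fun n => ?_⟩
  have h1 := S_mul (s := s) (n := n) (X ^ 1) F
  have h2 := S_add (s := s) (n := n) (F - 1) (X ^ 0)
  have h3 := S_pow (s := s) (n := n) 1
  have h4 := S_pow (s := s) (n := n) 0
  simp only [pow_one, pow_zero, sub_add_cancel, add_sub_cancel_right] at *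
  nlinarith [mul_le_mul h3 (h2.trans (add_le_add (h.2 n) h4)) (S_nn _) (by positivity)]

lemma Inv.b (s0 : 0 < s) (hs : s ^ 2 + s = 1) {F : ℚ⟦X⟧} (h : Inv s F) :
    Inv s (qn 2 - X ^ (2 - 1) * F⁻¹) := by
  have e1 := PowerSeries.mul_inv_cancel F (by simp [h.1])
  refine ⟨by simp [qn, sum_range_succ], fun n => ?_⟩
  have h1 := S_add (s := s) (n := n) (X ^ 0) (-((F - 1) * F⁻¹))
  have h2 := S_mul (s := s) (n := n) (F - 1) F⁻¹
  have h3 := S_mul (s := s) (n := n) (X ^ 1) ((F - 1) * F⁻¹)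
  have h4 := S_pow (s := s) (n := n) 1
  have h5 := S_pow (s := s) (n := n) 0
  have h6 := mul_le_mul_of_nonneg_right (h.2 n) (S_nn (s := s) (n := n) F⁻¹)
  rw [S_neg, show X ^ 0 + -((F - 1) * F⁻¹) = F⁻¹ by linear_combination -e1] at h1
  rw [show qn 2 - X ^ (2 - 1) * F⁻¹ - 1 = X ^ 1 * ((F - 1) * F⁻¹) by
    simp only [qn, sum_range_succ, range_zero, sum_empty]; linear_combination -X * e1]
  simp only [pow_one, pow_zero] at *
  have h7 : s * S s n F⁻¹ * s ≤ 1 := by nlinarith [S_nn (s := s) (n := n) F⁻¹]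
  nlinarith [mul_le_mul h4 (h2.trans h6) (S_nn _) (by positivity)]

lemma qn_succ (c : ℕ) : qn (c + 1) = X * qn c + 1 := geom_sum_succ

lemma inv_tr (s0 : 0 < s) (hs : s ^ 2 + s = 1) (N : ℕ) :
    ∀ c : ℕ → ℕ, (∀ j, 2 ≤ c j) → Inv s (tr c N) := by
  induction N with
  | zero =>
    intro c hc
    rw [tr]
    induction c 0, (one_le_two.trans (hc 0)) using Nat.le_induction with
    | base => exact ⟨by simp [qn], fun n => by simpa [qn, S] using s0.le⟩
    | succ k _ ih => exact qn_succ k ▸ ih.a s0 hs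
  | succ N ih =>
    intro c hc
    rw [tr]
    have h := ih (fun j => c (j + 1)) fun j => hc _
    induction c 0, hc 0 using Nat.le_induction with
    | base => exact h.b s0 hs
    | succ k hk ih =>
      convert ih.a s0 hs using 1
      obtain ⟨k, rfl⟩ : ∃ j, k = j + 1 := ⟨k - 1, by omega⟩
      rw [qn_succ (k + 1), Nat.add_sub_cancel, Nat.add_sub_cancel]
      ring

lemma stab (s0 : 0 < s) (hs : s ^ 2 + s = 1) (N : ℕ) :
    ∀ c : ℕ → ℕ, (∀ j, 2 ≤ c j) → X ^ (N + 1) ∣ tr c (N + 1) - tr c N := by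
  induction N with
  | zero =>
    intro c hc
    rw [tr, tr, tr, sub_sub_cancel_left, dvd_neg]
    exact (pow_dvd_pow _ (by have := hc 0; omega)).mul_right _
  | succ N ih =>
    intro c hc
    have h := fun N => PowerSeries.mul_inv_cancel _ (by
      simp [(inv_tr s0 hs N (fun j => c (j + 1)) fun j => hc _).1] :
        constantCoeff (tr (fun j => c (j + 1)) N) ≠ 0)
    rw [tr.eq_2 c (N + 1), tr.eq_2 c N, show ∀ a x u v : ℚ⟦X⟧, a - x * u - (a - x * v) = x * (v - u) from fun _ _ _ _ => by ring,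
      show (tr (fun j => c (j + 1)) N)⁻¹ - (tr (fun j => c (j + 1)) (N + 1))⁻¹ =
        (tr (fun j => c (j + 1)) (N + 1) - tr (fun j => c (j + 1)) N) *
          ((tr (fun j => c (j + 1)) N)⁻¹ * (tr (fun j => c (j + 1)) (N + 1))⁻¹) by
        linear_combination (tr (fun j => c (j + 1)) (N + 1))⁻¹ * h N -
          (tr (fun j => c (j + 1)) N)⁻¹ * h (N + 1), pow_succ' _ (N + 1)]
    exact mul_dvd_mul (dvd_pow_self _ (by have := hc 0; omega)) ((ih _ fun j => hc _).mul_right _)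

noncomputable def nx (x : ℝ) : ℝ := 1 / (⌊x⌋₊ + 1 - x)

lemma nx_ge {x : ℝ} (hx : 1 ≤ x) : 1 ≤ nx x :=
  one_le_one_div (by linarith [Nat.lt_floor_add_one x]) (by linarith [Nat.floor_le (by linarith : 0 ≤ x)])

lemma cf_near (N : ℕ) : ∀ x : ℝ, 1 ≤ x → 0 ≤ cf (fun j => ⌊nx^[j] x⌋₊ + 1) N - x ∧
    cf (fun j => ⌊nx^[j] x⌋₊ + 1) N - x ≤ 1 / (N + 1) := by
  induction N with
  | zero =>
    intro x hx
    simp only [cf, Function.iterate_zero, id]
    push_cast
    constructor <;> linarith [Nat.lt_floor_add_one x, Nat.floor_le (by linarith : 0 ≤ x)]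
  | succ N ih =>
    intro x hx
    obtain ⟨h1, h2⟩ := ih _ (nx_ge hx)
    have h3 := nx_ge hx
    simp only [cf, Function.iterate_zero, id, Function.iterate_succ_apply]
    generalize cf (fun j => ⌊nx^[j] (nx x)⌋₊ + 1) N = y at *
    have h4 : ((⌊x⌋₊ + 1 : ℕ) : ℝ) - 1 / y - x = (y - nx x) / (nx x * y) := by
      have : ((⌊x⌋₊ + 1 : ℕ) : ℝ) - x = 1 / nx x := by rw [nx, one_div_one_div]; push_cast; ring
      rw [sub_right_comm, this, div_sub_div _ _ (by linarith) (by linarith)]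
      ring
    rw [h4]
    refine ⟨div_nonneg h1 (by nlinarith), ?_⟩
    rw [le_div_iff₀ (by positivity)] at h2
    rw [div_le_div_iff₀ (by nlinarith) (by positivity)]
    push_cast
    nlinarith

theorem result (x : ℝ) : (∃ F, QReal x F) ∧ ∀ F, QReal x F → ∀ q : ℂ, ‖q‖ ≤ (3 - √5) / 2 →
    Summable fun k : ℕ => ‖(F.coeff k : ℂ) * q ^ k‖ := by
  have h5 := Real.sq_sqrt (show (0 : ℝ) ≤ 5 by norm_num)
  have s0 : 0 < (√5 - 1) / 2 := by nlinarith [Real.sqrt_nonneg 5]
  have hs : ((√5 - 1) / 2) ^ 2 + (√5 - 1) / 2 = 1 := by nlinarith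
  have e : (3 - √5) / 2 = ((√5 - 1) / 2) ^ 2 := by nlinarith
  rw [e]
  generalize (√5 - 1) / 2 = s at *
  constructor
  · obtain ⟨m, hm⟩ := exists_nat_ge (1 - x)
    have h1 : ∀ j, 1 ≤ nx^[j] (x + m) := fun j => by
      induction j with
      | zero => exact (by linarith : 1 ≤ x + m)
      | succ j ih => rw [Function.iterate_succ_apply']; exact nx_ge ih
    have hc : ∀ j, 2 ≤ ⌊nx^[j] (x + m)⌋₊ + 1 := fun j => Nat.succ_le_succ (Nat.one_le_floor_iff _ |>.2 (h1 j))
    refine ⟨_, m, _, mk fun k => coeff k (tr (fun j => ⌊nx^[j] (x + m)⌋₊ + 1) k), hc, ?_,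
      fun k => (eventually_ge_atTop k).mono fun N hN => ?_, rfl⟩
    · exact tendsto_sub_nhds_zero_iff.1 (squeeze_zero (fun N => (cf_near N _ (h1 0)).1)
        (fun N => (cf_near N _ (h1 0)).2) tendsto_one_div_add_atTop_nhds_zero_nat)
    · rw [coeff_mk]
      induction N, hN using Nat.le_induction with
      | base => rfl
      | succ N hN ih =>
        rw [← ih, ← sub_eq_zero, ← map_sub]
        exact X_pow_dvd_iff.1 (stab s0 hs N _ hc) k (by omega)
  rintro F ⟨m, c, G, hc, -, hG, rfl⟩ q hq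
  have h1 : Summable fun k : ℕ => |((sh^[m] (HahnSeries.ofPowerSeries ℤ ℚ G)).coeff k : ℝ)| *
      (s ^ 2) ^ k := by
    induction m with
    | zero =>
      simp only [Function.iterate_zero, id, HahnSeries.ofPowerSeries_apply_coeff]
      refine summable_of_sum_range_le (c := s + 1) (fun _ => by positivity) fun n => ?_
      obtain ⟨N, hN⟩ := ((eventually_all_finset (range n)).2 fun k _ => hG k).exists
      have h2 := (S_add (tr c N - 1) (X ^ 0)).trans (add_le_add ((inv_tr s0 hs N c hc).2 n) (S_pow 0))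
      rw [pow_zero, pow_zero, sub_add_cancel] at h2
      exact (sum_congr rfl fun k hk => by rw [hN k hk]).trans_le h2
    | succ m ih =>
      rw [Function.iterate_succ_apply']
      refine (((summable_nat_add_iff 1).2 ih).mul_left (s ^ 2)⁻¹).congr fun k => ?_
      have h2 := HahnSeries.coeff_single_mul_add (r := (1 : ℚ)) (a := (k + 1 : ℤ)) (b := -1)
        (x := sh^[m] (HahnSeries.ofPowerSeries ℤ ℚ G) - 1)
      rw [add_neg_cancel_right, one_mul, HahnSeries.coeff_sub, HahnSeries.coeff_one,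
        if_neg (by omega), sub_zero] at h2
      rw [sh, h2, pow_succ _ k]
      push_cast
      field_simp
  refine h1.of_nonneg_of_le (fun _ => norm_nonneg _) fun k => ?_
  rw [norm_mul, norm_pow, Complex.norm_ratCast]
  gcongr

end Pool.Agent.Results.MP_b13893_an.Yes
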